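import Pool.Agent.H174.GP.StP

/-! Harris inequality for a finite family (helper196 for helper174, project GP) -/

open MeasureTheory ProbabilityTheory Finset

namespace Pool.Agent.H196.GP174

open Pool.Agent.H174.GP

theorem gp_harrisn (h1 : S_harris) : Pool.Agent.H174.GP.S_harrisN := by
  intro I s F
  induction s using Finset.induction_on with
  | empty =>
    intro _ _ _
    simp
  | insert a s ha ih =>
    intro hm hd hu
    have hm' : ∀ i ∈ s, MeasurableSet (F i) := fun i hi => hm i (Finset.mem_insert_of_mem hi)
    have hd' : ∀ i ∈ s, DepOn I (F i) := fun i hi => hd i (Finset.mem_insert_of_mem hi)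
    have hu' : ∀ i ∈ s, IsUpperSet (F i) := fun i hi => hu i (Finset.mem_insert_of_mem hi)
    rw [Finset.prod_insert ha, Finset.set_biInter_insert]
    have h2 := mul_le_mul_of_nonneg_left (ih hm' hd' hu')
      (measureReal_nonneg : 0 ≤ PP.real (F a))
    refine h2.trans (h1 I (F a) (⋂ i ∈ s, F i) (hm a (Finset.mem_insert_self a s))
      (Finset.measurableSet_biInter s hm') (hd a (Finset.mem_insert_self a s)) ?_
      (hu a (Finset.mem_insert_self a s)) ?_)
    · intro w w' hw h3
      simp only [Set.mem_iInter] at h3 ⊢
      exact fun i hi => hd' i hi w w' hw (h3 i hi)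
    · intro w w' hw h3
      simp only [Set.mem_iInter] at h3 ⊢
      exact fun i hi => hu' i hi hw (h3 i hi)

end Pool.Agent.H196.GP174
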